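import Pool.Agent.Helper94.ES.Defs

/-!
# Lagrange interpolation identity for elementary symmetric polynomials (task LF of MP_7f94de)
-/

open Finset Polynomial

namespace Pool.Agent.Helper43.ES

open Pool.Agent.Helper94.ES

variable {ι : Type*} [DecidableEq ι]

theorem lagrange_eval (α β : ι → ℂ) (T : Finset ι) (hα : ∀ i ∈ T, α i ≠ 0)
    (hbr : ∀ i ∈ T, ∀ j ∈ T, i ≠ j → br α β i j ≠ 0) (m l : ℕ) (hT : T.card = m + 1)
    (hl : l ≤ m) (t : ℂ) :
    t ^ (m - l) = ∑ c ∈ T, ((-β c) ^ (m - l) * α c ^ l / ∏ c' ∈ T.erase c, br α β c c') *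
      ∏ c' ∈ T.erase c, (α c' * t + β c') := by
  classical
  have hinj : Set.InjOn (fun i => - β i / α i) (T : Set ι) := by
    intro i hi j hj hij
    by_contra hne
    apply hbr i hi j hj hne
    have h1 := hα i hi
    have h2 := hα j hj
    simp only at hij
    rw [div_eq_div_iff h1 h2] at hij
    unfold br
    linear_combination hij
  have hdeg : ((X : ℂ[X]) ^ (m - l)).degree < (T.card : ℕ) := by
    rw [degree_X_pow, hT]
    exact_mod_cast (by omega : m - l < m + 1)
  have h := Lagrange.eq_interpolate (v := fun i => - β i / α i) hinj hdeg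
  have h2 := congrArg (eval t) h
  rw [eval_pow, eval_X, Lagrange.interpolate_apply, eval_finsetSum] at h2
  rw [h2]
  refine Finset.sum_congr rfl fun c hc => ?_
  rw [eval_mul, eval_C, Lagrange.basis, eval_prod, eval_pow, eval_X]
  have hc0 := hα c hc
  have hcard : (T.erase c).card = m := by rw [Finset.card_erase_of_mem hc, hT]; omega
  have key : ∀ c' ∈ T.erase c, eval t (Lagrange.basisDivisor (- β c / α c) (- β c' / α c'))
      = α c * ((α c' * t + β c') / br α β c c') := by
    intro c' hc'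
    rw [Finset.mem_erase] at hc'
    have h1 := hα c' hc'.2
    have h3 := hbr c hc c' hc'.2 hc'.1.symm
    have h4 : - β c / α c - - β c' / α c' ≠ 0 := by
      intro h0
      apply h3
      rw [sub_eq_zero, div_eq_div_iff hc0 h1] at h0
      unfold br
      linear_combination h0
    have h5 : - β c / α c - - β c' / α c' = br α β c c' / (α c * α c') := by
      unfold br
      field_simp
      ring
    rw [Lagrange.basisDivisor, eval_mul, eval_C, eval_sub, eval_X, eval_C, h5]
    field_simp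
    ring
  rw [Finset.prod_congr rfl key, Finset.prod_mul_distrib, Finset.prod_const, hcard,
    Finset.prod_div_distrib, div_pow]
  have h6 : α c ^ m = α c ^ (m - l) * α c ^ l := by
    rw [← pow_add]; congr 1; omega
  rw [h6]
  have h7 : α c ^ (m - l) ≠ 0 := pow_ne_zero _ hc0
  generalize ∏ x ∈ T.erase c, (α x * t + β x) = P
  generalize ∏ x ∈ T.erase c, br α β c x = Q
  generalize (α c) ^ (m - l) = R at h7 ⊢
  rw [div_mul_eq_mul_div, div_eq_iff h7]
  ring

theorem lagrange_poly (α β : ι → ℂ) (T : Finset ι) (hα : ∀ i ∈ T, α i ≠ 0)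
    (hbr : ∀ i ∈ T, ∀ j ∈ T, i ≠ j → br α β i j ≠ 0) (m l : ℕ) (hT : T.card = m + 1)
    (hl : l ≤ m) :
    ∑ c ∈ T, C ((-β c) ^ (m - l) * α c ^ l / ∏ c' ∈ T.erase c, br α β c c') *
      ∏ c' ∈ T.erase c, (C (α c') + C (β c') * X) = (X : ℂ[X]) ^ l := by
  classical
  apply Polynomial.eq_of_infinite_eval_eq
  apply Set.Infinite.mono (s := {0}ᶜ)
  · intro z hz
    have hz0 : z ≠ 0 := by simpa using hz
    have h := lagrange_eval α β T hα hbr m l hT hl z⁻¹
    simp only [Set.mem_ofPred_eq]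
    rw [eval_finsetSum, eval_pow, eval_X]
    have h6 : z ^ l = z ^ m * (z⁻¹) ^ (m - l) := by
      have : z ^ m = z ^ l * z ^ (m - l) := by rw [← pow_add]; congr 1; omega
      rw [this, mul_assoc, ← mul_pow, mul_inv_cancel₀ hz0, one_pow, mul_one]
    rw [h6, h, Finset.mul_sum]
    refine Finset.sum_congr rfl fun c hc => ?_
    have hcard : (T.erase c).card = m := by rw [Finset.card_erase_of_mem hc, hT]; omega
    rw [eval_mul, eval_C, eval_prod, mul_left_comm]
    congr 1
    rw [← hcard, ← Finset.prod_const, ← Finset.prod_mul_distrib]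
    refine Finset.prod_congr rfl fun c' _ => ?_
    simp only [eval_add, eval_mul, eval_C, eval_X]
    field_simp
  · exact (Set.finite_singleton (0:ℂ)).infinite_compl

/-- LF -/
theorem lagrange_EE (α β : ι → ℂ) (A T : Finset ι) (hTA : T ⊆ A) (hα : ∀ i ∈ T, α i ≠ 0)
    (hbr : ∀ i ∈ T, ∀ j ∈ T, i ≠ j → br α β i j ≠ 0) (m l : ℕ) (hT : T.card = m + 1)
    (hl : l ≤ m) (j : ℕ) :
    ∑ c ∈ T, ((-β c) ^ (m - l) * α c ^ l / ∏ c' ∈ T.erase c, br α β c c') * EE α β (A.erase c) j
      = if l ≤ j then EE α β (A \ T) (j - l) else 0 := by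
  classical
  have h := lagrange_poly α β T hα hbr m l hT hl
  have h2 := congrArg (fun p => (p * ∏ i ∈ A \ T, (C (α i) + C (β i) * X)).coeff j) h
  simp only at h2
  rw [Polynomial.coeff_X_pow_mul'] at h2
  unfold EE
  rw [← h2, Finset.sum_mul, finsetSum_coeff]
  refine Finset.sum_congr rfl fun c hc => ?_
  rw [mul_assoc, coeff_C_mul]
  congr 2
  rw [← Finset.prod_union]
  · refine Finset.prod_congr ?_ fun _ _ => rfl
    ext x
    simp only [Finset.mem_erase, Finset.mem_union, Finset.mem_sdiff]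
    constructor
    · rintro ⟨h1, h2⟩
      by_cases hx : x ∈ T
      · exact Or.inl ⟨h1, hx⟩
      · exact Or.inr ⟨h2, hx⟩
    · rintro (⟨h1, h2⟩ | ⟨h1, h2⟩)
      · exact ⟨h1, hTA h2⟩
      · exact ⟨fun h => h2 (h ▸ hc), h1⟩
  · rw [Finset.disjoint_left]
    intro x hx hx2
    exact (Finset.mem_sdiff.mp hx2).2 (Finset.mem_of_mem_erase hx)

end Pool.Agent.Helper43.ES
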