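import Pool.Agent.Helper94.ES.Defs

/-!
# Generic radius lemma (task GR of MP_7f94de)
-/

open Finset MeasureTheory

namespace Pool.Agent.Helper43.ES

theorem abs_mul_log_le (y : ℝ) (hy : |y| ≤ 1) : |y * Real.log y| ≤ 1 := by
  rcases eq_or_ne y 0 with rfl | h0
  · simp
  have h1 : 0 < |y| := abs_pos.mpr h0
  rw [abs_mul, ← Real.log_abs y]
  have h2 := Real.abs_log_mul_self_lt |y| h1 hy
  rw [mul_comm, abs_mul, abs_abs] at h2
  rw [mul_comm]
  rw [mul_comm] at h2
  exact h2.le

/-- integral of `log |ϱ - x|` over `[r/4, r/2]` from below. -/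
theorem integral_log_lb (r : ℝ) (hr : 0 < r) (x : ℝ) (hx : 0 ≤ x) (hxr : x < r) :
    (r / 4) * Real.log r - (9 / 4) * r ≤ ∫ ϱ in (r / 4)..(r / 2), Real.log (ϱ - x) := by
  rw [intervalIntegral.integral_comp_sub_right (fun u => Real.log u) x, integral_log]
  have hsub : ∀ u : ℝ, |u| ≤ r → |u * Real.log u - u * Real.log r| ≤ r := by
    intro u hu
    rcases eq_or_ne u 0 with rfl | h0
    · simp [hr.le]
    have h1 : |u / r| ≤ 1 := by
      rw [abs_div, abs_of_pos hr, div_le_one hr]; exact hu
    have h2 := abs_mul_log_le (u / r) h1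
    rw [Real.log_div h0 hr.ne'] at h2
    have h3 : u * Real.log u - u * Real.log r = r * (u / r * (Real.log u - Real.log r)) := by
      field_simp
    rw [h3, abs_mul, abs_of_pos hr]
    nlinarith [abs_nonneg (u / r * (Real.log u - Real.log r))]
  have ha : |r / 4 - x| ≤ r := by rw [abs_le]; constructor <;> linarith
  have hb : |r / 2 - x| ≤ r := by rw [abs_le]; constructor <;> linarith
  have h1 := (abs_le.mp (hsub _ ha)).2
  have h2 := (abs_le.mp (hsub _ hb)).1
  nlinarith

/-- upper bound of the integral of `log ((r+x)/|ϱ - x|)`. -/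
theorem integral_ub (r : ℝ) (hr : 0 < r) (x : ℝ) (hx : 0 ≤ x) :
    ∫ ϱ in (r / 4)..(r / 2), (Real.log (r + x) - Real.log (ϱ - x)) ≤ (5 / 2) * r := by
  have hle : r / 4 ≤ r / 2 := by linarith
  have hI : IntervalIntegrable (fun ϱ : ℝ => Real.log (ϱ - x)) volume (r / 4) (r / 2) := by
    have := (intervalIntegral.intervalIntegrable_log' (a := r / 4 - x) (b := r / 2 - x)).comp_sub_right x
    simpa using this
  rcases lt_or_ge x r with h | h
  · rw [intervalIntegral.integral_sub (by simp) hI]
    have h1 := integral_log_lb r hr x hx h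
    rw [intervalIntegral.integral_const]
    have h2 : Real.log (r + x) ≤ Real.log 2 + Real.log r := by
      rw [← Real.log_mul (by norm_num) hr.ne']
      apply Real.log_le_log <;> linarith
    have h3 : Real.log 2 ≤ 1 := by
      have := Real.log_two_lt_d9; linarith
    simp only [smul_eq_mul]
    have h4 : (r / 2 - r / 4) * Real.log (r + x) ≤ (r / 4) * (1 + Real.log r) := by
      have : r / 2 - r / 4 = r / 4 := by ring
      rw [this]
      apply mul_le_mul_of_nonneg_left _ (by linarith)
      linarith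
    nlinarith
  · have h1 : ∀ ϱ ∈ Set.Icc (r / 4) (r / 2), Real.log (r + x) - Real.log (ϱ - x) ≤ 2 := by
      intro ϱ hϱ
      have h2 : 0 < x - ϱ := by linarith [hϱ.2]
      have h3 : Real.log (ϱ - x) = Real.log (x - ϱ) := by
        rw [← Real.log_neg_eq_log]; congr 1; ring
      rw [h3, ← Real.log_div (by linarith) h2.ne']
      have h4 : (r + x) / (x - ϱ) ≤ 4 := by
        rw [div_le_iff₀ h2]; linarith [hϱ.2]
      have h5 : Real.log ((r + x) / (x - ϱ)) ≤ Real.log 4 :=
        Real.log_le_log (by apply div_pos <;> linarith) h4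
      have h6 : Real.log 4 ≤ 2 := by
        have : (4:ℝ) = 2 ^ 2 := by norm_num
        rw [this, Real.log_pow]
        have := Real.log_two_lt_d9
        push_cast; linarith
      linarith
    have h2 : ∫ ϱ in (r / 4)..(r / 2), (Real.log (r + x) - Real.log (ϱ - x))
        ≤ ∫ ϱ in (r / 4)..(r / 2), (2:ℝ) := by
      apply intervalIntegral.integral_mono_on hle _ (by simp) h1
      exact (intervalIntegrable_const).sub hI
    refine h2.trans ?_
    rw [intervalIntegral.integral_const]
    simp only [smul_eq_mul]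
    linarith

/-- GR -/
theorem exists_radius : ∃ K : ℝ, 1 ≤ K ∧ ∀ (r : ℝ), 0 < r → ∀ (M : Multiset ℝ), (∀ x ∈ M, 0 ≤ x) →
    ∀ (T : Finset ℝ) (n : ℕ), 1 ≤ n → T.card ≤ n →
    ∃ ϱ ∈ Set.Icc (r / 4) (r / 2),
      (M.map (fun x => r + x)).prod ≤ K ^ M.card * (M.map (fun x => |ϱ - x|)).prod ∧
      ∀ s ∈ T, r / (64 * n) ≤ |ϱ - s| := by
  refine ⟨Real.exp 12, by simp, ?_⟩
  intro r hr M hM T n hn hT
  have hle : r / 4 ≤ r / 2 := by linarith
  have hn0 : (0:ℝ) < n := by exact_mod_cast hn
  set δ : ℝ := r / (64 * n) with hδ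
  have hδ0 : 0 < δ := by positivity
  set B : Set ℝ := ⋃ s ∈ T, Set.Ioo (s - δ) (s + δ) with hB
  set Z : Set ℝ := (M.toFinset : Set ℝ) with hZ
  set S : Set ℝ := Set.Ioc (r / 4) (r / 2) \ (B ∪ Z) with hS
  have hBm : MeasurableSet B := by
    apply Finset.measurableSet_biUnion
    intro s _
    exact measurableSet_Ioo
  have hZm : MeasurableSet Z := (M.toFinset.finite_toSet).measurableSet
  have hSm : MeasurableSet S := measurableSet_Ioc.diff (hBm.union hZm)
  have hZ0 : volume Z = 0 := (M.toFinset.finite_toSet).measure_zero _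
  have hB1 : volume B ≤ ENNReal.ofReal (r / 32) := by
    calc volume B ≤ ∑ s ∈ T, volume (Set.Ioo (s - δ) (s + δ)) := measure_biUnion_finset_le _ _
      _ = ∑ s ∈ T, ENNReal.ofReal (2 * δ) := by
          refine Finset.sum_congr rfl fun s _ => ?_
          rw [Real.volume_Ioo]; congr 1; ring
      _ = T.card * ENNReal.ofReal (2 * δ) := by rw [Finset.sum_const, nsmul_eq_mul]
      _ ≤ n * ENNReal.ofReal (2 * δ) := by gcongr
      _ = ENNReal.ofReal (r / 32) := by
          rw [← ENNReal.ofReal_natCast, ← ENNReal.ofReal_mul hn0.le]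
          congr 1
          rw [hδ]; field_simp; norm_num
  have hBZ : volume (B ∪ Z) ≤ ENNReal.ofReal (r / 32) := by
    refine (measure_union_le _ _).trans ?_
    rw [hZ0, add_zero]; exact hB1
  have hSv : ENNReal.ofReal (7 * r / 32) ≤ volume S := by
    have h1 : volume (Set.Ioc (r / 4) (r / 2)) ≤ volume S + volume (B ∪ Z) := by
      refine le_trans (measure_mono ?_) (measure_union_le S (B ∪ Z))
      intro x hx
      by_cases h : x ∈ B ∪ Z
      · exact Or.inr h
      · exact Or.inl ⟨hx, h⟩
    rw [Real.volume_Ioc] at h1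
    have h2 : ENNReal.ofReal (r / 2 - r / 4) = ENNReal.ofReal (7 * r / 32) + ENNReal.ofReal (r / 32) := by
      rw [← ENNReal.ofReal_add (by positivity) (by positivity)]
      congr 1; ring
    rw [h2] at h1
    have h3 := h1.trans (add_le_add_right hBZ (volume S))
    exact (ENNReal.add_le_add_iff_right ENNReal.ofReal_ne_top).mp h3
  have hSlt : volume S ≠ ⊤ := by
    apply ne_top_of_le_ne_top _ (measure_mono (Set.sdiff_subset : S ⊆ Set.Ioc (r / 4) (r / 2)))
    rw [Real.volume_Ioc]; exact ENNReal.ofReal_ne_top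
  have hS0 : volume S ≠ 0 := by
    intro h
    rw [h] at hSv
    have : ENNReal.ofReal (7 * r / 32) = 0 := le_antisymm hSv zero_le
    rw [ENNReal.ofReal_eq_zero] at this
    linarith
  -- the function
  set f : ℝ → ℝ := fun ϱ => (M.map (fun x => Real.log (r + x) - Real.log (ϱ - x))).sum with hf
  have hI : ∀ x : ℝ, IntervalIntegrable (fun ϱ : ℝ => Real.log (r + x) - Real.log (ϱ - x))
      volume (r / 4) (r / 2) := by
    intro x
    have := (intervalIntegral.intervalIntegrable_log' (a := r / 4 - x) (b := r / 2 - x)).comp_sub_right x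
    exact intervalIntegrable_const.sub (by simpa using this)
  have hint : IntervalIntegrable f volume (r / 4) (r / 2) ∧
      ∫ ϱ in (r / 4)..(r / 2), f ϱ ≤ M.card * ((5 / 2) * r) := by
    clear_value f
    subst hf
    clear hZ hS hSv hSlt hS0 hSm hZ0 hZm hBZ 
    clear S
    clear Z
    induction M using Multiset.induction_on with
    | empty => simp
    | cons a M ih =>
      obtain ⟨ih1, ih2⟩ := ih (fun x hx => hM x (Multiset.mem_cons_of_mem hx))
      simp only [Multiset.map_cons, Multiset.sum_cons, Multiset.card_cons]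
      refine ⟨(hI a).add ih1, ?_⟩
      rw [intervalIntegral.integral_add (hI a) ih1]
      have := integral_ub r hr a (hM a (Multiset.mem_cons_self a M))
      push_cast
      linarith
  obtain ⟨hint1, hint2⟩ := hint
  have hf0 : ∀ ϱ ∈ Set.Ioc (r / 4) (r / 2) \ Z, 0 ≤ f ϱ := by
    intro ϱ hϱ
    apply Multiset.sum_nonneg
    intro y hy
    rw [Multiset.mem_map] at hy
    obtain ⟨x, hx, rfl⟩ := hy
    have hx0 := hM x hx
    have hne : ϱ ≠ x := by
      rintro rfl
      exact hϱ.2 (by simp [hZ, hx])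
    rw [sub_nonneg, ← Real.log_abs (ϱ - x)]
    apply Real.log_le_log (abs_pos.mpr (sub_ne_zero.mpr hne))
    rw [abs_le]
    constructor <;> linarith [hϱ.1.1, hϱ.1.2]
  have hintOn : IntegrableOn f (Set.Ioc (r / 4) (r / 2)) volume :=
    (intervalIntegrable_iff_integrableOn_Ioc_of_le hle).mp hint1
  have hSsub : S ⊆ Set.Ioc (r / 4) (r / 2) := Set.sdiff_subset
  have hintS : IntegrableOn f S volume := hintOn.mono_set hSsub
  obtain ⟨ϱ, hϱS, hϱ⟩ := exists_le_setAverage hS0 hSlt hintS
  have hfS : ∫ a in S, f a ≤ M.card * ((5 / 2) * r) := by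
    refine le_trans ?_ hint2
    rw [intervalIntegral.integral_of_le hle]
    apply setIntegral_mono_set hintOn
    · rw [Filter.EventuallyLE, ae_restrict_iff' measurableSet_Ioc]
      have : ∀ᵐ x ∂(volume : Measure ℝ), x ∉ Z := by
        rw [ae_iff]; simpa using hZ0
      filter_upwards [this] with x hx hx2
      exact hf0 x ⟨hx2, hx⟩
    · exact hSsub.eventuallyLE
  have hSr : 7 * r / 32 ≤ (volume S).toReal := by
    rw [← ENNReal.ofReal_le_iff_le_toReal hSlt]; exact hSv
  have hfϱ : f ϱ ≤ 12 * M.card := by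
    rw [setAverage_eq, smul_eq_mul, measureReal_def] at hϱ
    refine hϱ.trans ?_
    have hpos : 0 < (volume S).toReal := by linarith [hSr, hr]
    rw [inv_mul_le_iff₀ hpos]
    refine hfS.trans ?_
    have hm : (0:ℝ) ≤ M.card := Nat.cast_nonneg _
    nlinarith [mul_nonneg hm hr.le, mul_le_mul_of_nonneg_right hSr hm]
  refine ⟨ϱ, ⟨(hSsub hϱS).1.le, (hSsub hϱS).2⟩, ?_, ?_⟩
  · have hprod : ∀ x ∈ M, 0 < |ϱ - x| := by
      intro x hx
      apply abs_pos.mpr
      rw [sub_ne_zero]
      rintro rfl
      exact hϱS.2 (Or.inr (by simp [hZ, hx]))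
    have key : ∀ N : Multiset ℝ, (∀ x ∈ N, 0 ≤ x) → (∀ x ∈ N, 0 < |ϱ - x|) →
        (N.map (fun x => r + x)).prod = Real.exp ((N.map (fun x => Real.log (r + x) - Real.log (ϱ - x))).sum)
          * (N.map (fun x => |ϱ - x|)).prod := by
      intro N
      induction N using Multiset.induction_on with
      | empty => simp
      | cons a N ih =>
        intro h1 h2
        simp only [Multiset.map_cons, Multiset.prod_cons, Multiset.sum_cons]
        rw [ih (fun x hx => h1 x (Multiset.mem_cons_of_mem hx))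
          (fun x hx => h2 x (Multiset.mem_cons_of_mem hx)), Real.exp_add, Real.exp_sub,
          Real.exp_log (by linarith [h1 a (Multiset.mem_cons_self a N)]), ← Real.log_abs (ϱ - a),
          Real.exp_log (h2 a (Multiset.mem_cons_self a N))]
        have := (h2 a (Multiset.mem_cons_self a N)).ne'
        field_simp
    rw [key M hM hprod]
    apply mul_le_mul_of_nonneg_right
    · rw [← Real.exp_nat_mul]
      apply Real.exp_le_exp.mpr
      rw [mul_comm]
      exact hfϱ
    · apply Multiset.prod_nonneg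
      intro a ha
      rw [Multiset.mem_map] at ha
      obtain ⟨x, hx, rfl⟩ := ha
      exact abs_nonneg _
  · intro s hs
    by_contra hcon
    push Not at hcon
    apply hϱS.2
    left
    rw [hB]
    simp only [Set.mem_iUnion]
    refine ⟨s, hs, ?_⟩
    rw [abs_lt] at hcon
    constructor <;> linarith [hcon.1, hcon.2]

end Pool.Agent.Helper43.ES
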